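import Pool.Agent.Helper71.FX.St

/-!
# Project FX (MP_d629b1_an): module DE (exponential decay of an overlap integral)
-/

open MeasureTheory Filter Topology
open scoped FourierTransform RealInnerProductSpace Matrix ComplexConjugate ENNReal

noncomputable section

namespace Pool.Agent.Helper32.FX

open Wav Pool.Agent.Helper71.FX

private theorem de_neg {x e N C Pn Sn w c R β : ℝ} {m : ℕ} (hx : 0 ≤ x) (he : 0 ≤ e) (hN : 1 < N)
    (hC : 0 ≤ C) (hP0 : 0 ≤ Pn) (hS0 : 0 ≤ Sn) (hP : Pn ≤ C * (1 + x) ^ (-N))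
    (hS : Sn ≤ C * (1 + e) ^ (-N)) (hc : 0 < c) (hR : 0 < R) (hg : c * R ^ m * x ≤ e)
    (hβ : 0 < β) (hw : w = (1 + x) ^ (-(2 * N - 2 - β))) :
    x ^ 2 * Pn ^ 2 * Sn ≤ C ^ 3 * c⁻¹ * (R⁻¹) ^ m * w := by
  have hu : (1 : ℝ) ≤ 1 + x := by linarith
  have hu0 : (0 : ℝ) < 1 + x := by linarith
  have hP2 : Pn ^ 2 ≤ C ^ 2 * (1 + x) ^ (-(2 * N)) := by
    have h1 : Pn ^ 2 ≤ (C * (1 + x) ^ (-N)) ^ 2 := pow_le_pow_left₀ hP0 hP 2
    have h2 : ((1 + x) ^ (-N)) ^ 2 = (1 + x) ^ (-(2 * N)) := by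
      rw [← Real.rpow_natCast, ← Real.rpow_mul hu0.le]
      congr 1
      push_cast
      ring
    rwa [mul_pow, h2] at h1
  have hRm : 0 < R ^ m := by positivity
  have hS2 : x * Sn ≤ C * (c⁻¹ * (R⁻¹) ^ m) := by
    have h1 : (1 + e) ^ (-N) ≤ (1 + e) ^ (-1 : ℝ) :=
      Real.rpow_le_rpow_of_exponent_le (by linarith) (by linarith)
    rw [Real.rpow_neg_one] at h1
    have h2 : Sn ≤ C * (1 + e)⁻¹ := hS.trans (mul_le_mul_of_nonneg_left h1 hC)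
    have h3 : x * (1 + e)⁻¹ ≤ c⁻¹ * (R⁻¹) ^ m := by
      rw [inv_pow, ← mul_inv, ← div_eq_mul_inv, inv_eq_one_div, div_le_div_iff₀ (by linarith)
        (by positivity)]
      linarith [mul_comm x (c * R ^ m)]
    calc x * Sn ≤ x * (C * (1 + e)⁻¹) := mul_le_mul_of_nonneg_left h2 hx
      _ = C * (x * (1 + e)⁻¹) := by ring
      _ ≤ C * (c⁻¹ * (R⁻¹) ^ m) := mul_le_mul_of_nonneg_left h3 hC
  have hxw : x * (1 + x) ^ (-(2 * N)) ≤ w := by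
    have h1 : x * (1 + x) ^ (-(2 * N)) ≤ (1 + x) ^ (1 : ℝ) * (1 + x) ^ (-(2 * N)) := by
      apply mul_le_mul_of_nonneg_right _ (by positivity)
      rw [Real.rpow_one]
      linarith
    rw [← Real.rpow_add hu0] at h1
    refine h1.trans ?_
    rw [hw]
    exact Real.rpow_le_rpow_of_exponent_le hu (by linarith)
  have hk : 0 ≤ c⁻¹ * (R⁻¹) ^ m := by positivity
  calc x ^ 2 * Pn ^ 2 * Sn = (x * Pn ^ 2) * (x * Sn) := by ring
    _ ≤ (x * (C ^ 2 * (1 + x) ^ (-(2 * N)))) * (C * (c⁻¹ * (R⁻¹) ^ m)) := by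
        apply mul_le_mul (mul_le_mul_of_nonneg_left hP2 hx) hS2 (by positivity) (by positivity)
    _ = C ^ 3 * (c⁻¹ * (R⁻¹) ^ m) * (x * (1 + x) ^ (-(2 * N))) := by ring
    _ ≤ C ^ 3 * (c⁻¹ * (R⁻¹) ^ m) * w := mul_le_mul_of_nonneg_left hxw (by positivity)
    _ = _ := by ring

private theorem de_pos {x e N C Pn Sn w C₁ R β H' : ℝ} {m : ℕ} (hx : 0 ≤ x) (he : 0 ≤ e)
    (hC : 0 ≤ C) (hP0 : 0 ≤ Pn) (hS0 : 0 ≤ Sn) (hP : Pn ≤ C * (1 + x) ^ (-N))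
    (hS : Sn ≤ H' * e ^ β) (hH : 0 ≤ H') (hC₁ : 0 < C₁) (hR : 0 < R) (hg : e ≤ C₁ * (R ^ m)⁻¹ * x)
    (hβ : 0 < β) (hw : w = (1 + x) ^ (-(2 * N - 2 - β))) :
    x ^ 2 * Pn ^ 2 * Sn ≤ C ^ 2 * H' * C₁ ^ β * (R ^ (-β)) ^ m * w := by
  have hu0 : (0 : ℝ) < 1 + x := by linarith
  have hP2 : Pn ^ 2 ≤ C ^ 2 * (1 + x) ^ (-(2 * N)) := by
    have h1 : Pn ^ 2 ≤ (C * (1 + x) ^ (-N)) ^ 2 := pow_le_pow_left₀ hP0 hP 2
    have h2 : ((1 + x) ^ (-N)) ^ 2 = (1 + x) ^ (-(2 * N)) := by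
      rw [← Real.rpow_natCast, ← Real.rpow_mul hu0.le]
      congr 1
      push_cast
      ring
    rwa [mul_pow, h2] at h1
  have hRm : 0 < R ^ m := by positivity
  have he2 : e ^ β ≤ C₁ ^ β * (R ^ (-β)) ^ m * x ^ β := by
    have h1 : e ^ β ≤ (C₁ * (R ^ m)⁻¹ * x) ^ β := Real.rpow_le_rpow he hg hβ.le
    have h2 : ((R ^ m)⁻¹) ^ β = (R ^ (-β)) ^ m := by
      rw [← Real.rpow_natCast, ← Real.rpow_natCast, ← Real.rpow_neg hR.le, ← Real.rpow_mul hR.le,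
        ← Real.rpow_mul hR.le]
      congr 1
      ring
    rwa [Real.mul_rpow (by positivity) hx, Real.mul_rpow hC₁.le (by positivity), h2] at h1
  have hxw : x ^ 2 * x ^ β * (1 + x) ^ (-(2 * N)) ≤ w := by
    have h1 : x ^ 2 ≤ (1 + x) ^ (2 : ℝ) := by
      rw [Real.rpow_two]
      exact pow_le_pow_left₀ hx (by linarith) 2
    have h2 : x ^ β ≤ (1 + x) ^ β := Real.rpow_le_rpow hx (by linarith) hβ.le
    have h3 : x ^ 2 * x ^ β * (1 + x) ^ (-(2 * N)) ≤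
        (1 + x) ^ (2 : ℝ) * (1 + x) ^ β * (1 + x) ^ (-(2 * N)) :=
      mul_le_mul_of_nonneg_right (mul_le_mul h1 h2 (by positivity) (by positivity))
        (by positivity)
    rw [← Real.rpow_add hu0, ← Real.rpow_add hu0] at h3
    refine h3.trans (le_of_eq ?_)
    rw [hw]
    congr 1
    ring
  have hRb : 0 ≤ (R ^ (-β)) ^ m := by positivity
  calc x ^ 2 * Pn ^ 2 * Sn
      ≤ x ^ 2 * (C ^ 2 * (1 + x) ^ (-(2 * N))) * (H' * (C₁ ^ β * (R ^ (-β)) ^ m * x ^ β)) := by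
        apply mul_le_mul (mul_le_mul_of_nonneg_left hP2 (by positivity)) _ hS0 (by positivity)
        exact hS.trans (mul_le_mul_of_nonneg_left he2 hH)
    _ = C ^ 2 * H' * C₁ ^ β * (R ^ (-β)) ^ m * (x ^ 2 * x ^ β * (1 + x) ^ (-(2 * N))) := by ring
    _ ≤ _ := mul_le_mul_of_nonneg_left hxw (by positivity)

/-- MODULE DE -/
theorem pDE : StDE := by
  intro n N C H α A Φ Ψ hA _ hN' hα _ _ hΦ hΨ hH hΨ0
  have hn0 : (0 : ℝ) ≤ n := Nat.cast_nonneg n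
  have hN1 : 1 < N := by linarith
  have hC0 : 0 ≤ C := by
    have h := hΦ 0
    simp only [norm_zero, add_zero, Real.one_rpow, mul_one] at h
    exact (norm_nonneg _).trans h
  obtain ⟨c, ρ₁, hc, hρ₁, hgn⟩ := growth_neg hA 0
  obtain ⟨C₁, ρ₂, hC₁, hρ₂, hgp⟩ := growth_pos hA
  obtain ⟨β, hβ0, hβα, hβN⟩ : ∃ β : ℝ, 0 < β ∧ β ≤ α ∧ (n : ℝ) < 2 * N - 2 - β := by
    refine ⟨min α ((2 * N - 2 - n) / 2), lt_min hα (by linarith), min_le_left _ _, ?_⟩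
    have := min_le_right α ((2 * N - 2 - n) / 2)
    linarith
  set H' := |H| + C with hH'
  have hH'0 : 0 ≤ H' := by positivity
  have hΨβ : ∀ η : E n, ‖Ψ η‖ ≤ H' * ‖η‖ ^ β := by
    intro η
    rcases eq_or_ne η 0 with rfl | hη
    · rw [hΨ0, norm_zero]
      positivity
    · have hη0 : 0 < ‖η‖ := norm_pos_iff.mpr hη
      have hnn : 0 ≤ ‖η‖ ^ β := by positivity
      rcases le_or_gt ‖η‖ 1 with h1 | h1
      · have h2 := hH η 0
        rw [hΨ0, sub_zero, sub_zero] at h2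
        have h3 : ‖η‖ ^ α ≤ ‖η‖ ^ β := Real.rpow_le_rpow_of_exponent_ge hη0 h1 hβα
        have h4 : H * ‖η‖ ^ α ≤ |H| * ‖η‖ ^ β :=
          mul_le_mul (le_abs_self H) h3 (by positivity) (abs_nonneg _)
        have h5 : 0 ≤ C * ‖η‖ ^ β := mul_nonneg hC0 hnn
        rw [hH', add_mul]
        linarith
      · have h2 := hΨ η
        have h3 : (1 + ‖η‖) ^ (-N) ≤ 1 :=
          Real.rpow_le_one_of_one_le_of_nonpos (by linarith) (by linarith)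
        have h4 : 1 ≤ ‖η‖ ^ β := Real.one_le_rpow h1.le hβ0.le
        have h5 : C * (1 + ‖η‖) ^ (-N) ≤ C * ‖η‖ ^ β :=
          mul_le_mul_of_nonneg_left (h3.trans h4) hC0
        have h6 : 0 ≤ |H| * ‖η‖ ^ β := by positivity
        rw [hH', add_mul]
        linarith
  have hint : Integrable (fun ξ : E n => (1 + ‖ξ‖) ^ (-(2 * N - 2 - β))) :=
    integrable_one_add_norm (by simpa using hβN)
  set W := ∫ ξ : E n, (1 + ‖ξ‖) ^ (-(2 * N - 2 - β)) with hW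
  have hW0 : 0 ≤ W := integral_nonneg fun ξ => by positivity
  set K' := C ^ 3 * c⁻¹ + C ^ 2 * H' * C₁ ^ β with hK'
  have hK1 : 0 ≤ C ^ 3 * c⁻¹ := by positivity
  have hK2 : 0 ≤ C ^ 2 * H' * C₁ ^ β := by positivity
  have hρ₁0 : 0 < ρ₁ := by linarith
  have hρ₂0 : 0 < ρ₂ := by linarith
  set r := max ρ₁⁻¹ (ρ₂ ^ (-β)) with hr
  have hr0 : 0 ≤ r := le_trans (inv_nonneg.mpr hρ₁0.le) (le_max_left _ _)
  have hr1 : r < 1 := by
    rw [hr]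
    refine max_lt (inv_lt_one_of_one_lt₀ hρ₁) ?_
    exact Real.rpow_lt_one_of_one_lt_of_neg hρ₂ (by linarith)
  refine ⟨K' * W, r, by positivity, hr0, hr1, ?_⟩
  intro d
  have hpt : ∀ ξ : E n, ‖ξ‖ ^ 2 * ‖Φ ξ‖ ^ 2 * ‖Ψ (act (Aᵀ ^ (-d)) ξ)‖ ≤
      K' * r ^ d.natAbs * (1 + ‖ξ‖) ^ (-(2 * N - 2 - β)) := by
    intro ξ
    have hw0 : 0 ≤ (1 + ‖ξ‖) ^ (-(2 * N - 2 - β)) := by positivity
    rcases lt_or_ge d 0 with hd | hd
    · have hz : ρ₁ ^ (-d) = ρ₁ ^ d.natAbs := by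
        rw [← zpow_natCast]
        congr 1
        omega
      have hg := hgn d hd.le ξ
      rw [hz] at hg
      have h := de_neg (norm_nonneg ξ) (norm_nonneg (act (Aᵀ ^ (-d)) ξ)) hN1 hC0
        (norm_nonneg (Φ ξ)) (norm_nonneg (Ψ (act (Aᵀ ^ (-d)) ξ))) (hΦ ξ) (hΨ _) hc hρ₁0 hg hβ0 rfl
      refine h.trans ?_
      apply mul_le_mul_of_nonneg_right _ hw0
      have h1 : (ρ₁⁻¹) ^ d.natAbs ≤ r ^ d.natAbs :=
        pow_le_pow_left₀ (inv_nonneg.mpr hρ₁0.le) (le_max_left _ _) _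
      have h2 : 0 ≤ r ^ d.natAbs := by positivity
      calc C ^ 3 * c⁻¹ * (ρ₁⁻¹) ^ d.natAbs ≤ C ^ 3 * c⁻¹ * r ^ d.natAbs :=
            mul_le_mul_of_nonneg_left h1 hK1
        _ ≤ K' * r ^ d.natAbs := mul_le_mul_of_nonneg_right (by linarith) h2
    · have hz : ρ₂ ^ (-d) = (ρ₂ ^ d.natAbs)⁻¹ := by
        rw [zpow_neg, ← zpow_natCast]
        congr 2
        omega
      have hg := hgp d hd ξ
      rw [hz] at hg
      have h := de_pos (N := N) (norm_nonneg ξ) (norm_nonneg (act (Aᵀ ^ (-d)) ξ)) hC0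
        (norm_nonneg (Φ ξ)) (norm_nonneg (Ψ (act (Aᵀ ^ (-d)) ξ))) (hΦ ξ) (hΨβ _) hH'0 hC₁ hρ₂0 hg
        hβ0 rfl
      refine h.trans ?_
      apply mul_le_mul_of_nonneg_right _ hw0
      have h1 : (ρ₂ ^ (-β)) ^ d.natAbs ≤ r ^ d.natAbs :=
        pow_le_pow_left₀ (by positivity) (le_max_right _ _) _
      have h2 : 0 ≤ r ^ d.natAbs := by positivity
      calc C ^ 2 * H' * C₁ ^ β * (ρ₂ ^ (-β)) ^ d.natAbs ≤ C ^ 2 * H' * C₁ ^ β * r ^ d.natAbs :=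
            mul_le_mul_of_nonneg_left h1 hK2
        _ ≤ K' * r ^ d.natAbs := mul_le_mul_of_nonneg_right (by linarith) h2
  calc ∫ ξ, ‖ξ‖ ^ 2 * ‖Φ ξ‖ ^ 2 * ‖Ψ (act (Aᵀ ^ (-d)) ξ)‖
      ≤ ∫ ξ : E n, K' * r ^ d.natAbs * (1 + ‖ξ‖) ^ (-(2 * N - 2 - β)) := by
        apply integral_mono_of_nonneg
        · exact Eventually.of_forall fun ξ => by
            simp only [Pi.zero_apply]
            positivity
        · exact hint.const_mul _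
        · exact Eventually.of_forall hpt
    _ = K' * r ^ d.natAbs * W := by rw [integral_const_mul]
    _ = K' * W * r ^ d.natAbs := by ring

end Pool.Agent.Helper32.FX
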