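import Pool.Agent.Helper71.FX.St

/-!
# Project FX (MP_d629b1_an): module LX (position functions are square integrable)
-/

open MeasureTheory Filter Topology
open scoped FourierTransform RealInnerProductSpace Matrix ComplexConjugate ENNReal

noncomputable section

namespace Pool.Agent.Helper32.FX

open Wav Pool.Agent.Helper71.FX

/-- the weight `1 + ‖x‖` may be multiplied -/
private theorem weight_memLp {n : ℕ} {N : ℝ} {ψ : E n → ℂ} (h : WellLocalized N ψ)
    (hN : (n : ℝ) / 2 + 1 < N) :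
    MemLp (fun x : E n => ((1 + ‖x‖ : ℝ) : ℂ) * ψ x) 2 (volume : Measure (E n)) := by
  obtain ⟨C, R, hC⟩ := h.decay
  set R' := max R 1 with hR'
  have hN0 : 0 ≤ N := by
    have : (0 : ℝ) ≤ (n : ℝ) := Nat.cast_nonneg n
    linarith
  have hint : Integrable (fun x : E n => (1 + ‖x‖) ^ (-(2 * N - 2))) :=
    integrable_one_add_norm (by simp; linarith)
  have hcw : Continuous (fun x : E n => (1 + ‖x‖) ^ (1 - N)) := by
    refine Continuous.rpow_const (by fun_prop) ?_
    intro x
    left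
    have := norm_nonneg x
    positivity
  have hw : MemLp (fun x : E n => (1 + ‖x‖) ^ (1 - N)) 2 (volume : Measure (E n)) := by
    rw [memLp_two_iff_integrable_sq hcw.aestronglyMeasurable]
    refine hint.congr (Eventually.of_forall fun x => ?_)
    have hx : (0 : ℝ) ≤ 1 + ‖x‖ := by positivity
    simp only
    rw [← Real.rpow_natCast, ← Real.rpow_mul hx]
    congr 1
    push_cast
    ring
  have hR1 : 1 ≤ R' := le_max_right R 1
  have hsum : MemLp (fun x : E n => (1 + R') * ‖ψ x‖ + |C| * 2 ^ N * (1 + ‖x‖) ^ (1 - N)) 2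
      (volume : Measure (E n)) :=
    (h.memLp.norm.const_mul (1 + R')).add (hw.const_mul (|C| * 2 ^ N))
  refine MemLp.of_le hsum ?_ ?_
  · refine AEStronglyMeasurable.mul ?_ h.memLp.aestronglyMeasurable
    have : Continuous (fun x : E n => ((1 + ‖x‖ : ℝ) : ℂ)) := by fun_prop
    exact this.aestronglyMeasurable
  · filter_upwards [hC] with x hx
    have hx0 : 0 ≤ ‖x‖ := norm_nonneg x
    have hnn : 0 ≤ |C| * 2 ^ N * (1 + ‖x‖) ^ (1 - N) := by positivity
    have hnn2 : 0 ≤ (1 + R') * ‖ψ x‖ := by positivity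
    rw [norm_mul, Complex.norm_real, Real.norm_of_nonneg (by positivity : (0 : ℝ) ≤ 1 + ‖x‖),
      Real.norm_of_nonneg (add_nonneg hnn2 hnn)]
    rcases le_or_gt ‖x‖ R' with hle | hgt
    · have h1 : (1 + ‖x‖) * ‖ψ x‖ ≤ (1 + R') * ‖ψ x‖ := by
        apply mul_le_mul_of_nonneg_right _ (norm_nonneg _)
        linarith
      linarith
    · have hxp : 0 < ‖x‖ := by linarith
      have h1 : 1 ≤ ‖x‖ := by linarith
      have hxR : R ≤ ‖x‖ := (le_max_left R 1).trans hgt.le
      have h2 := hx hxR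
      have e1 : ‖x‖ ^ (-N) ≤ 2 ^ N * (1 + ‖x‖) ^ (-N) := by
        rw [Real.rpow_neg hxp.le, Real.rpow_neg (by linarith), ← div_eq_mul_inv,
          ← Real.div_rpow (by norm_num) (by linarith), ← Real.inv_rpow hxp.le]
        apply Real.rpow_le_rpow (by positivity) _ hN0
        rw [inv_eq_one_div, div_le_div_iff₀ hxp (by linarith)]
        linarith
      have e2 : C * ‖x‖ ^ (-N) ≤ |C| * (2 ^ N * (1 + ‖x‖) ^ (-N)) := by
        have h3 := le_abs_self C
        have h0 : 0 ≤ ‖x‖ ^ (-N) := by positivity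
        exact mul_le_mul h3 e1 h0 (abs_nonneg _)
      have e3 : (1 + ‖x‖) ^ (1 - N) = (1 + ‖x‖) * (1 + ‖x‖) ^ (-N) := by
        rw [sub_eq_add_neg, Real.rpow_add (by linarith), Real.rpow_one]
      have e4 : (1 + ‖x‖) * ‖ψ x‖ ≤ (1 + ‖x‖) * (|C| * (2 ^ N * (1 + ‖x‖) ^ (-N))) :=
        mul_le_mul_of_nonneg_left (h2.trans e2) (by linarith)
      have e5 : (1 + ‖x‖) * (|C| * (2 ^ N * (1 + ‖x‖) ^ (-N))) =
          |C| * 2 ^ N * (1 + ‖x‖) ^ (1 - N) := by
        rw [e3]
        ring
      linarith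

/-- MODULE LX -/
theorem pLX : StLX := by
  intro n L N A ψ hG p w c
  have hA : A.det ≠ 0 := expansive_det hG.exp
  have hu : IsUnit A.det := isUnit_iff_ne_zero.2 hA
  obtain ⟨l, j, k⟩ := p
  have hwt := weight_memLp (hG.loc l) hG.big'
  set M := A ^ (-j) with hM
  set w' : E n := act Mᵀ w with hw'
  set a : ℝ := ⟪w, act M (ivec k) - c⟫ with ha
  have hinner : ∀ y : E n, ⟪w, act M (y + ivec k) - c⟫ = ⟪w', y⟫ + a := by
    intro y
    rw [act_add, ha, hw', inner_act, Matrix.transpose_transpose, inner_sub_right, inner_sub_right,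
      inner_add_right]
    ring
  have hmem : MemLp (fun y : E n => ((⟪w, act M (y + ivec k) - c⟫ : ℝ) : ℂ) * ψ l y) 2
      (volume : Measure (E n)) := by
    refine MemLp.of_le_mul (c := ‖w'‖ + |a|) hwt ?_ ?_
    · refine AEStronglyMeasurable.mul ?_ (hG.loc l).memLp.aestronglyMeasurable
      have : Continuous (fun y : E n => ((⟪w, act M (y + ivec k) - c⟫ : ℝ) : ℂ)) := by
        simp_rw [hinner]
        fun_prop
      exact this.aestronglyMeasurable
    · refine Eventually.of_forall fun y => ?_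
      rw [hinner, norm_mul, norm_mul, Complex.norm_real, Complex.norm_real,
        Real.norm_of_nonneg (by positivity : (0 : ℝ) ≤ 1 + ‖y‖), ← mul_assoc]
      apply mul_le_mul_of_nonneg_right _ (norm_nonneg _)
      have h1 : |⟪w', y⟫| ≤ ‖w'‖ * ‖y‖ := abs_real_inner_le_norm w' y
      have h2 : |⟪w', y⟫ + a| ≤ |⟪w', y⟫| + |a| := abs_add_le _ _
      have h3 := norm_nonneg w'
      have h4 := norm_nonneg y
      have h5 := abs_nonneg a
      rw [Real.norm_eq_abs]
      nlinarith [mul_nonneg h5 h4]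
  have h := affine_memLp hA hmem j k
  refine h.ae_eq (Eventually.of_forall fun x => ?_)
  have hinv : act M (act (A ^ j) x) = x := by
    rw [hM, ← act_mul, Matrix.zpow_neg_mul_zpow_self _ hu, act_one]
  simp only [aff, affine]
  rw [sub_add_cancel, hinv]
  ring

end Pool.Agent.Helper32.FX
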