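import Pool.Agent.Helper2.FX.StG

/-!
Project FX (MP_3bffab_ag), chapter T, module TLC (helper32): tameness without zeros and transport of
tameness along a homeomorphism.
-/

set_option autoImplicit false

namespace Pool.Agent.Helper32.FX

open Set Metric Pool.Agent.Helper84.FX Pool.Agent.Helper2.FX

theorem WE_congr {E F : Type} [TopologicalSpace E] [TopologicalSpace F] {X : Set E} {Y : Set F}
    {f f' : E → F} (h : WE X Y f') (he : ∀ x ∈ X, f x = f' x) : WE X Y f := by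
  obtain ⟨⟨h1, h2⟩, h3⟩ := h
  refine ⟨⟨h1.congr he, ?_⟩, ?_⟩
  · intro x hx
    rw [he x hx]
    exact h2 hx
  · intro n a b ha hb hab
    obtain ⟨c, H, hc, hca, hH, hH0, hH1, hHb⟩ := h3 n a b ha hb
      (fun u hu => by rw [hab u hu, he _ (ha.2 hu)])
    exact ⟨c, H, hc, hca, hH, hH0, fun u hu => by rw [hH1 u hu, he _ (hc.2 hu)], hHb⟩

section

variable {E E' : Type} [TopologicalSpace E] [TopologicalSpace E'] {G : Type}
  [NormedAddCommGroup G] [NormedSpace ℝ G]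

theorem sg_cont {M : Set E} {g : E → G} (hg : ContinuousOn g M) (h0 : ∀ x ∈ M, g x ≠ 0) :
    ContinuousOn (sg g) M := by
  unfold sg
  refine continuousOn_id.prodMk (ContinuousOn.smul (ContinuousOn.inv₀ hg.norm ?_) hg)
  intro x hx
  exact norm_ne_zero_iff.2 (h0 x hx)

theorem nrm_one {v : G} (hv : v ≠ 0) : ‖‖v‖⁻¹ • v‖ = 1 := by
  rw [norm_smul, norm_inv, norm_norm, inv_mul_cancel₀ (norm_ne_zero_iff.2 hv)]

theorem sg_mem {M : Set E} {g : E → G} {x : E} (hx : x ∈ M) (h0 : g x ≠ 0) : sg g x ∈ TT M g := by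
  refine ⟨hx, ?_, ?_⟩
  · exact (nrm_one h0).le
  · change g x = ‖g x‖ • (‖g x‖⁻¹ • g x)
    rw [smul_smul, mul_inv_cancel₀ (norm_ne_zero_iff.2 h0), one_smul]

theorem sg_ne {g : E → G} {x : E} (h0 : g x ≠ 0) : (sg g x).2 ≠ 0 := by
  intro h
  have h1 := nrm_one h0
  change ‖(sg g x).2‖ = 1 at h1
  rw [h, norm_zero] at h1
  exact zero_ne_one h1

theorem sg_fst {M : Set E} {g : E → G} {q : E × G} (hq : q ∈ TT M g) (h0 : g q.1 ≠ 0) :
    sg g q.1 = q := by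
  obtain ⟨-, -, h3⟩ := hq
  refine Prod.ext rfl ?_
  change ‖g q.1‖⁻¹ • g q.1 = q.2
  have h4 : ‖g q.1‖⁻¹ • g q.1 = ‖g q.1‖⁻¹ • (‖g q.1‖ • q.2) := by rw [← h3]
  rw [h4, smul_smul, inv_mul_cancel₀ (norm_ne_zero_iff.2 h0), one_smul]

theorem mpT {M : Set E} {M' : Set E'} {g : E → G} {g' : E' → G} {ψ : E → E'}
    (hψ : Mp M M' ψ) (hg : ∀ x ∈ M, g' (ψ x) = g x) :
    Mp (TT M g) (TT M' g') (fun q : E × G => (ψ q.1, q.2)) := by
  refine ⟨?_, ?_⟩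
  · refine ContinuousOn.prodMk ?_ continuousOn_snd
    exact hψ.1.comp continuousOn_fst (fun q hq => hq.1)
  · intro q hq
    refine ⟨hψ.2 hq.1, hq.2.1, ?_⟩
    change g' (ψ q.1) = ‖g' (ψ q.1)‖ • q.2
    rw [hg q.1 hq.1]
    exact hq.2.2

theorem mpT' {M : Set E} {M' : Set E'} {g : E → G} {g' : E' → G} {ψ : E → E'}
    (hψ : Mp M M' ψ) (hg : ∀ x ∈ M, g' (ψ x) = g x) :
    Mp (TT M g ∩ {q | q.2 ≠ 0}) (TT M' g' ∩ {q | q.2 ≠ 0}) (fun q : E × G => (ψ q.1, q.2)) := by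
  obtain ⟨h1, h2⟩ := mpT hψ hg
  exact ⟨h1.mono inter_subset_left, fun q hq => ⟨h2 hq.1, hq.2⟩⟩

end

theorem hTLC (hWCG : StWCG) (hCMP : StCMP) : StTLC := by
  obtain ⟨-, hHom, -, -⟩ := hWCG
  refine ⟨?_, ?_⟩
  · intro E _ G _ _ M g hg h0
    have hfst : Mp (TT M g) M Prod.fst := ⟨continuousOn_fst, fun q hq => hq.1⟩
    have hsg : Mp M (TT M g) (sg g) := ⟨sg_cont hg h0, fun x hx => sg_mem hx (h0 x hx)⟩
    refine ⟨hg, ?_, ?_⟩
    · exact hHom (E × G) E (TT M g) M Prod.fst (sg g) hfst hsg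
        (fun q hq => sg_fst hq (h0 q.1 hq.1)) (fun x _ => rfl)
    · refine hHom E (E × G) (M ∩ {x | g x ≠ 0}) (TT M g ∩ {q | q.2 ≠ 0}) (sg g) Prod.fst
        ⟨hsg.1.mono inter_subset_left, fun x hx => ⟨hsg.2 hx.1, sg_ne hx.2⟩⟩
        ⟨continuousOn_fst, fun q hq => ⟨hq.1.1, h0 q.1 hq.1.1⟩⟩
        (fun x _ => rfl) (fun q hq => sg_fst hq.1 (h0 q.1 hq.1.1))
  · intro E E' _ _ G _ _ M M' g g' φ ψ hφ hψ hψφ hφψ hgφ hT
    obtain ⟨c1, c2, c3⟩ := hT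
    have hgψ : ∀ x ∈ M, g' (ψ x) = g x := by
      intro x hx
      rw [← hgφ (ψ x) (hψ.2 hx), hφψ x hx]
    have hgφ' : ∀ x ∈ M', g (φ x) = g' x := hgφ
    refine ⟨?_, ?_, ?_⟩
    · exact (c1.comp hψ.1 hψ.2).congr fun x hx => (hgψ x hx).symm
    · have w1 : WE (TT M g) (TT M' g') (fun q : E × G => (ψ q.1, q.2)) :=
        hHom (E × G) (E' × G) (TT M g) (TT M' g') (fun q : E × G => (ψ q.1, q.2))
          (fun q : E' × G => (φ q.1, q.2)) (mpT hψ hgψ) (mpT hφ hgφ')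
          (fun q hq => Prod.ext (hφψ q.1 hq.1) rfl) (fun q hq => Prod.ext (hψφ q.1 hq.1) rfl)
      have w2 : WE M' M φ := hHom E' E M' M φ ψ hφ hψ hψφ hφψ
      have w3 := hCMP (E × G) (E' × G) E' (TT M g) (TT M' g') M' _ Prod.fst w1 c2
      have w4 := hCMP (E × G) E' E (TT M g) M' M _ φ w3 w2
      exact WE_congr w4 fun q hq => (hφψ q.1 hq.1).symm
    · have w1 : WE (M ∩ {x | g x ≠ 0}) (M' ∩ {x | g' x ≠ 0}) ψ := by
        refine hHom E E' _ _ ψ φ ⟨hψ.1.mono inter_subset_left, fun x hx => ⟨hψ.2 hx.1, ?_⟩⟩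
          ⟨hφ.1.mono inter_subset_left, fun x hx => ⟨hφ.2 hx.1, ?_⟩⟩
          (fun x hx => hφψ x hx.1) (fun x hx => hψφ x hx.1)
        · change g' (ψ x) ≠ 0
          rw [hgψ x hx.1]
          exact hx.2
        · change g (φ x) ≠ 0
          rw [hgφ x hx.1]
          exact hx.2
      have w2 : WE (TT M' g' ∩ {q | q.2 ≠ 0}) (TT M g ∩ {q | q.2 ≠ 0})
          (fun q : E' × G => (φ q.1, q.2)) :=
        hHom (E' × G) (E × G) _ _ (fun q : E' × G => (φ q.1, q.2))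
          (fun q : E × G => (ψ q.1, q.2)) (mpT' hφ hgφ') (mpT' hψ hgψ)
          (fun q hq => Prod.ext (hψφ q.1 hq.1.1) rfl) (fun q hq => Prod.ext (hφψ q.1 hq.1.1) rfl)
      have w3 := hCMP E E' (E' × G) _ _ _ ψ (sg g') w1 c3
      have w4 := hCMP E (E' × G) (E × G) _ _ _ _ (fun q : E' × G => (φ q.1, q.2)) w3 w2
      refine WE_congr w4 fun x hx => ?_
      change (x, ‖g x‖⁻¹ • g x) = (φ (ψ x), ‖g' (ψ x)‖⁻¹ • g' (ψ x))
      rw [hφψ x hx.1, hgψ x hx.1]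

end Pool.Agent.Helper32.FX
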