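import Pool.Agent.Helper87.FX.StA

/-!
Project FX (MP_3bffab_ag), chapter S, module TRN (helper32): transition maps of open cells are smooth.
-/

set_option autoImplicit false

namespace Pool.Agent.Helper32.FX

open Pool.Agent.Helper87.FX
open Set Topology Metric Filter
open scoped ContDiff

theorem hTRN : StTRN := by
  intro E V _ _ _ _ _ _ X e g R he hg hsub
  classical
  have : CompleteSpace E := FiniteDimensional.complete ℝ E
  set φ : E → E := fun x => if h : ∃ z, e z = g x then Classical.choose h else 0 with hφd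
  have hφ : ∀ x ∈ ball (0 : E) R, e (φ x) = g x := by
    intro x hx
    obtain ⟨z, hz⟩ := hsub ⟨x, hx, rfl⟩
    have h : ∃ z, e z = g x := ⟨z, hz⟩
    rw [hφd]
    simp only [dif_pos h]
    exact Classical.choose_spec h
  have hev : ∀ x₀ ∈ ball (0 : E) R, (fun x => e (φ x)) =ᶠ[𝓝 x₀] g := by
    intro x₀ hx₀
    filter_upwards [isOpen_ball.mem_nhds hx₀] with x hx
    exact hφ x hx
  have hcont : ∀ x₀ ∈ ball (0 : E) R, Tendsto φ (𝓝 x₀) (𝓝 (φ x₀)) := by
    intro x₀ hx₀
    rw [he.emb.isInducing.tendsto_nhds_iff]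
    have h1 : Tendsto g (𝓝 x₀) (𝓝 (g x₀)) := hg.sm.continuous.tendsto x₀
    rw [← hφ x₀ hx₀] at h1
    exact h1.congr' (hev x₀ hx₀).symm
  have hsm : ∀ x₀ ∈ ball (0 : E) R, ContDiffAt ℝ ∞ φ x₀ := by
    intro x₀ hx₀
    obtain ⟨A, hA⟩ := LinearMap.exists_leftInverse_of_injective
      (fderiv ℝ e (φ x₀) : E →ₗ[ℝ] V) (LinearMap.ker_eq_bot.2 (he.imm (φ x₀)))
    set A' : V →L[ℝ] E := LinearMap.toContinuousLinearMap A with hA'
    have hAe : A'.comp (fderiv ℝ e (φ x₀)) = ContinuousLinearMap.id ℝ E := by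
      ext v
      exact LinearMap.congr_fun hA v
    have hh : ContDiffAt ℝ ∞ (fun z => A' (e z)) (φ x₀) :=
      (A'.contDiff.comp he.sm).contDiffAt
    have hde : HasFDerivAt e (fderiv ℝ e (φ x₀)) (φ x₀) :=
      (he.sm.contDiffAt.differentiableAt (by simp)).hasFDerivAt
    have hd : HasFDerivAt (fun z => A' (e z))
        ((ContinuousLinearEquiv.refl ℝ E : E ≃L[ℝ] E) : E →L[ℝ] E) (φ x₀) := by
      have := A'.hasFDerivAt.comp (φ x₀) hde
      rw [hAe] at this
      exact this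
    have hn : (∞ : WithTop ℕ∞) ≠ 0 := by simp
    set ρ := hh.localInverse hd hn with hρ
    have hρs : ContDiffAt ℝ ∞ ρ (A' (e (φ x₀))) := hh.to_localInverse hd hn
    have hleft : ∀ᶠ z in 𝓝 (φ x₀), ρ (A' (e z)) = z :=
      (hh.hasStrictFDerivAt' hd hn).eventually_left_inverse
    have heq : φ =ᶠ[𝓝 x₀] fun x => ρ (A' (g x)) := by
      filter_upwards [(hcont x₀ hx₀).eventually hleft, isOpen_ball.mem_nhds hx₀] with x h1 h2
      rw [← hφ x h2, h1]
    have hAg : ContDiffAt ℝ ∞ (fun x => A' (g x)) x₀ := (A'.contDiff.comp hg.sm).contDiffAt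
    rw [hφ x₀ hx₀] at hρs
    exact (ContDiffAt.comp x₀ hρs hAg).congr_of_eventuallyEq heq
  refine ⟨φ, ⟨fun x hx => (hsm x hx).contDiffWithinAt, ?_, ?_⟩, hφ⟩
  · intro x hx y hy hxy
    apply hg.emb.injective
    rw [← hφ x hx, ← hφ y hy, hxy]
  · intro x hx
    have h1 : HasFDerivAt φ (fderiv ℝ φ x) x :=
      ((hsm x hx).differentiableAt (by simp)).hasFDerivAt
    have h2 : HasFDerivAt e (fderiv ℝ e (φ x)) (φ x) :=
      (he.sm.contDiffAt.differentiableAt (by simp)).hasFDerivAt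
    have h3 : HasFDerivAt (fun y => e (φ y)) ((fderiv ℝ e (φ x)).comp (fderiv ℝ φ x)) x :=
      h2.comp x h1
    have h4 : fderiv ℝ g x = (fderiv ℝ e (φ x)).comp (fderiv ℝ φ x) := by
      rw [← (hev x hx).fderiv_eq]
      exact h3.fderiv
    intro v w hvw
    apply hg.imm x
    rw [h4]
    simp only [ContinuousLinearMap.comp_apply]
    rw [hvw]

end Pool.Agent.Helper32.FX
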